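import Pool.Agent.Lib.MP_1a91b9_nuT.Base

/-!
# The coordinates, the norm and the conjugation of `𝓞 K`
-/

set_option autoImplicit false

namespace Pool.Agent.Lib.MP_1a91b9_nuT

open NumberField

noncomputable section

variable [CD]

theorem ta_quad : (ta : 𝓞 K) ^ 2 = (CD.tr : 𝓞 K) * ta - (CD.nm : 𝓞 K) := CD.quad

theorem exists_coords (a : 𝓞 K) : ∃ m n : ℤ, a = (m : 𝓞 K) + (n : 𝓞 K) * ta := CD.gen a

/-- the complex embedding of `m + n ta` -/
theorem emb_coords (m n : ℤ) :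
    embK (((m : 𝓞 K) + (n : 𝓞 K) * ta : 𝓞 K) : K) = (m : ℂ) + (n : ℂ) * zt := by
  have e : (((m : 𝓞 K) + (n : 𝓞 K) * ta : 𝓞 K) : K) = (m : K) + (n : K) * (ta : K) := by
    change algebraMap (𝓞 K) K ((m : 𝓞 K) + (n : 𝓞 K) * ta) = _
    rw [map_add, map_mul, map_intCast, map_intCast]
  rw [e, map_add, map_mul, map_intCast, map_intCast]
  rfl

theorem embO_injective : Function.Injective fun a : 𝓞 K => embK (a : K) := by
  intro a b h
  exact RingOfIntegers.ext (embK.toRingHom.injective h)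

theorem coords_inj {m n m' n' : ℤ}
    (h : (m : 𝓞 K) + (n : 𝓞 K) * ta = (m' : 𝓞 K) + (n' : 𝓞 K) * ta) : m = m' ∧ n = n' := by
  have h1 := congrArg (fun a : 𝓞 K => embK (a : K)) h
  change embK (((m : 𝓞 K) + (n : 𝓞 K) * ta : 𝓞 K) : K) =
    embK (((m' : 𝓞 K) + (n' : 𝓞 K) * ta : 𝓞 K) : K) at h1
  rw [emb_coords, emb_coords] at h1
  have him := congrArg Complex.im h1
  have hre := congrArg Complex.re h1
  simp at him hre
  have hn : n = n' := by
    rcases him with e | e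
    · exact_mod_cast e
    · exact absurd e zt_ne
  subst hn
  exact ⟨by exact_mod_cast (add_right_cancel hre), rfl⟩

theorem zt_quad : zt ^ 2 = (CD.tr : ℂ) * zt - (CD.nm : ℂ) := by
  have h1 := congrArg (fun a : 𝓞 K => embK (a : K)) ta_quad
  have e1 : embK (((ta : 𝓞 K) ^ 2 : 𝓞 K) : K) = zt ^ 2 := by
    have : (((ta : 𝓞 K) ^ 2 : 𝓞 K) : K) = (ta : K) ^ 2 := map_pow (algebraMap (𝓞 K) K) _ _
    rw [this, map_pow]
    rfl
  have e2 : embK ((((CD.tr : 𝓞 K) * ta - (CD.nm : 𝓞 K) : 𝓞 K)) : K) =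
      (CD.tr : ℂ) * zt - (CD.nm : ℂ) := by
    have : ((((CD.tr : 𝓞 K) * ta - (CD.nm : 𝓞 K) : 𝓞 K)) : K) =
        (CD.tr : K) * (ta : K) - (CD.nm : K) := by
      change algebraMap (𝓞 K) K _ = _
      rw [map_sub, map_mul, map_intCast, map_intCast]
    rw [this, map_sub, map_mul, map_intCast, map_intCast]
    rfl
  exact e1.symm.trans (h1.trans e2)

/-- the trace and the norm of `zt` -/
theorem two_re : 2 * zt.re = CD.tr := by
  have h := congrArg Complex.im zt_quad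
  simp [pow_two] at h
  have h2 : zt.im * (2 * zt.re - CD.tr) = 0 := by linarith
  rcases mul_eq_zero.1 h2 with h3 | h3
  · exact absurd h3 zt_ne
  · linarith

theorem norm_zt : zt.re ^ 2 + zt.im ^ 2 = CD.nm := by
  have h := congrArg Complex.re zt_quad
  simp [pow_two] at h
  rw [← two_re] at h
  linear_combination -h

theorem conj_zt : (starRingEnd ℂ) zt = (CD.tr : ℂ) - zt := by
  apply Complex.ext
  · simp
    have := two_re
    linarith
  · simp

/-- the discriminant is negative -/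
theorem disc_neg : (CD.tr : ℤ) ^ 2 < 4 * CD.nm := by
  have h1 := two_re
  have h2 := norm_zt
  have h3 : 0 < zt.im ^ 2 := by
    have := zt_ne
    positivity
  have h4 : ((CD.tr : ℤ) : ℝ) ^ 2 < 4 * ((CD.nm : ℤ) : ℝ) := by
    rw [← h1, ← h2]
    nlinarith
  exact_mod_cast h4

/-- the norm form is positive -/
theorem form_nonneg (m n : ℤ) : 0 ≤ m ^ 2 + CD.tr * m * n + CD.nm * n ^ 2 := by
  have h := disc_neg
  nlinarith [sq_nonneg (2 * m + CD.tr * n), sq_nonneg n]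

/-- the basis `1, ta` -/
def bas : Module.Basis (Fin 2) ℤ (𝓞 K) := by
  refine Module.Basis.mk (v := ![(1 : 𝓞 K), ta]) ?_ ?_
  · rw [LinearIndependent.pair_iff]
    intro s t h
    have h1 : (s : 𝓞 K) + (t : 𝓞 K) * ta = ((0 : ℤ) : 𝓞 K) + ((0 : ℤ) : 𝓞 K) * ta := by
      rw [zsmul_eq_mul, zsmul_eq_mul, mul_one] at h
      rw [h]
      simp
    exact coords_inj h1
  · rintro a -
    obtain ⟨m, n, rfl⟩ := exists_coords a
    have h1 : (1 : 𝓞 K) ∈ Submodule.span ℤ (Set.range ![(1 : 𝓞 K), ta]) :=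
      Submodule.subset_span ⟨0, rfl⟩
    have h2 : (ta : 𝓞 K) ∈ Submodule.span ℤ (Set.range ![(1 : 𝓞 K), ta]) :=
      Submodule.subset_span ⟨1, rfl⟩
    have h3 := Submodule.add_mem _ (Submodule.smul_mem _ m h1) (Submodule.smul_mem _ n h2)
    rwa [zsmul_eq_mul, zsmul_eq_mul, mul_one] at h3

theorem bas_zero : bas 0 = (1 : 𝓞 K) := by
  rw [bas, Module.Basis.mk_apply]
  rfl

theorem bas_one : bas 1 = (ta : 𝓞 K) := by
  rw [bas, Module.Basis.mk_apply]
  rfl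

theorem bas_repr (m n : ℤ) : bas.repr ((m : 𝓞 K) + (n : 𝓞 K) * ta) =
    Finsupp.single 0 m + Finsupp.single 1 n := by
  apply bas.repr.symm.injective
  rw [LinearEquiv.symm_apply_apply, map_add, Module.Basis.repr_symm_single,
    Module.Basis.repr_symm_single, bas_zero, bas_one, zsmul_eq_mul, zsmul_eq_mul, mul_one]

/-- the norm of `m + n ta` -/
theorem norm_form (m n : ℤ) : Algebra.norm ℤ ((m : 𝓞 K) + (n : 𝓞 K) * ta) =
    m ^ 2 + CD.tr * m * n + CD.nm * n ^ 2 := by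
  rw [Algebra.norm_eq_matrix_det bas, Matrix.det_fin_two]
  simp only [Algebra.leftMulMatrix_eq_repr_mul, bas_zero, bas_one]
  have e0 : ((m : 𝓞 K) + (n : 𝓞 K) * ta) * 1 = (m : 𝓞 K) + (n : 𝓞 K) * ta := mul_one _
  have e1 : ((m : 𝓞 K) + (n : 𝓞 K) * ta) * ta =
      ((-(n * CD.nm) : ℤ) : 𝓞 K) + ((m + n * CD.tr : ℤ) : 𝓞 K) * ta := by
    push_cast
    linear_combination (n : 𝓞 K) * ta_quad
  rw [e0, e1, bas_repr, bas_repr]
  simp
  ring

theorem absNorm_form (m n : ℤ) :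
    ((Ideal.absNorm (Ideal.span {(m : 𝓞 K) + (n : 𝓞 K) * ta}) : ℕ) : ℤ) =
      m ^ 2 + CD.tr * m * n + CD.nm * n ^ 2 := by
  rw [Ideal.absNorm_span_singleton, norm_form, Int.natCast_natAbs, abs_of_nonneg (form_nonneg m n)]

theorem card_quot_form (m n : ℤ) :
    ((Nat.card (𝓞 K ⧸ Ideal.span {(m : 𝓞 K) + (n : 𝓞 K) * ta}) : ℕ) : ℤ) =
      m ^ 2 + CD.tr * m * n + CD.nm * n ^ 2 := absNorm_form m n

theorem finrank_O : Module.finrank ℤ (𝓞 K) = 2 := by
  rw [Module.finrank_eq_card_basis bas, Fintype.card_fin]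

theorem finrank_K : Module.finrank ℚ K = 2 := by
  rw [← RingOfIntegers.rank K]
  exact finrank_O

/-! ### the conjugation -/

private def cjm (a : 𝓞 K) : ℤ := (exists_coords a).choose
private def cjn (a : 𝓞 K) : ℤ := (exists_coords a).choose_spec.choose

private theorem cj_spec (a : 𝓞 K) : a = (cjm a : 𝓞 K) + (cjn a : 𝓞 K) * ta :=
  (exists_coords a).choose_spec.choose_spec

private def cjF (a : 𝓞 K) : 𝓞 K :=
  ((cjm a + cjn a * CD.tr : ℤ) : 𝓞 K) - (cjn a : 𝓞 K) * ta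

private theorem cjF_coords (m n : ℤ) : cjF ((m : 𝓞 K) + (n : 𝓞 K) * ta) =
    ((m + n * CD.tr : ℤ) : 𝓞 K) - (n : 𝓞 K) * ta := by
  obtain ⟨h1, h2⟩ := coords_inj (cj_spec ((m : 𝓞 K) + (n : 𝓞 K) * ta))
  rw [cjF, ← h1, ← h2]

/-- the conjugation of `𝓞 K` -/
def cj : 𝓞 K →+* 𝓞 K where
  toFun := cjF
  map_one' := by
    have h := cjF_coords 1 0
    have e : ((1 : ℤ) : 𝓞 K) + ((0 : ℤ) : 𝓞 K) * ta = 1 := by push_cast; ring
    rw [e] at h
    rw [h]
    push_cast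
    ring
  map_zero' := by
    have h := cjF_coords 0 0
    have e : ((0 : ℤ) : 𝓞 K) + ((0 : ℤ) : 𝓞 K) * ta = 0 := by push_cast; ring
    rw [e] at h
    rw [h]
    push_cast
    ring
  map_add' a b := by
    obtain ⟨m, n, rfl⟩ := exists_coords a
    obtain ⟨m', n', rfl⟩ := exists_coords b
    have e : (m : 𝓞 K) + (n : 𝓞 K) * ta + ((m' : 𝓞 K) + (n' : 𝓞 K) * ta) =
        ((m + m' : ℤ) : 𝓞 K) + ((n + n' : ℤ) : 𝓞 K) * ta := by push_cast; ring
    rw [e, cjF_coords, cjF_coords, cjF_coords]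
    push_cast
    ring
  map_mul' a b := by
    obtain ⟨m, n, rfl⟩ := exists_coords a
    obtain ⟨m', n', rfl⟩ := exists_coords b
    have e : ((m : 𝓞 K) + (n : 𝓞 K) * ta) * ((m' : 𝓞 K) + (n' : 𝓞 K) * ta) =
        ((m * m' - n * n' * CD.nm : ℤ) : 𝓞 K) +
          ((m * n' + n * m' + n * n' * CD.tr : ℤ) : 𝓞 K) * ta := by
      push_cast
      linear_combination (n : 𝓞 K) * (n' : 𝓞 K) * ta_quad
    rw [e, cjF_coords, cjF_coords, cjF_coords]
    push_cast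
    linear_combination (-(n : 𝓞 K) * (n' : 𝓞 K)) * ta_quad

theorem cj_coords (m n : ℤ) : cj ((m : 𝓞 K) + (n : 𝓞 K) * ta) =
    ((m + n * CD.tr : ℤ) : 𝓞 K) - (n : 𝓞 K) * ta := cjF_coords m n

theorem cj_coords' (m n : ℤ) : cj ((m : 𝓞 K) + (n : 𝓞 K) * ta) =
    ((m + n * CD.tr : ℤ) : 𝓞 K) + ((-n : ℤ) : 𝓞 K) * ta := by
  rw [cj_coords]
  push_cast
  ring

theorem cj_cj (a : 𝓞 K) : cj (cj a) = a := by
  obtain ⟨m, n, rfl⟩ := exists_coords a
  rw [cj_coords', cj_coords]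
  push_cast
  ring

/-- the conjugation corresponds to the complex conjugation -/
theorem emb_cj (a : 𝓞 K) : embK ((cj a : 𝓞 K) : K) = (starRingEnd ℂ) (embK (a : K)) := by
  obtain ⟨m, n, rfl⟩ := exists_coords a
  rw [cj_coords', emb_coords, emb_coords, map_add, map_mul, map_intCast,
    map_intCast, conj_zt]
  push_cast
  ring

theorem absNorm_cj (a : 𝓞 K) :
    Ideal.absNorm (Ideal.span {cj a}) = Ideal.absNorm (Ideal.span {a}) := by
  obtain ⟨m, n, rfl⟩ := exists_coords a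
  have h1 : ((Ideal.absNorm (Ideal.span {cj ((m : 𝓞 K) + (n : 𝓞 K) * ta)}) : ℕ) : ℤ) =
      ((Ideal.absNorm (Ideal.span {(m : 𝓞 K) + (n : 𝓞 K) * ta}) : ℕ) : ℤ) := by
    rw [cj_coords', absNorm_form, absNorm_form]
    ring
  exact_mod_cast h1

theorem mul_cj (a : 𝓞 K) : a * cj a = ((Ideal.absNorm (Ideal.span {a}) : ℕ) : 𝓞 K) := by
  obtain ⟨m, n, rfl⟩ := exists_coords a
  have h1 : ((Ideal.absNorm (Ideal.span {(m : 𝓞 K) + (n : 𝓞 K) * ta}) : ℕ) : 𝓞 K) =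
      ((((Ideal.absNorm (Ideal.span {(m : 𝓞 K) + (n : 𝓞 K) * ta}) : ℕ) : ℤ)) : 𝓞 K) :=
    (Int.cast_natCast _).symm
  rw [h1, absNorm_form, cj_coords]
  push_cast
  linear_combination (-(n : 𝓞 K) ^ 2) * ta_quad

theorem cj_dvd_iff {a b : 𝓞 K} : cj a ∣ cj b ↔ a ∣ b := by
  constructor
  · intro h
    have h1 := map_dvd cj h
    rw [cj_cj, cj_cj] at h1
    exact h1
  · exact fun h => map_dvd cj h

/-- the absolute value -/
theorem normSq_emb (a : 𝓞 K) :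
    Complex.normSq (embK (a : K)) = (Ideal.absNorm (Ideal.span {a}) : ℝ) := by
  have h := congrArg (fun a : 𝓞 K => embK (a : K)) (mul_cj a)
  have e1 : embK (((a * cj a : 𝓞 K)) : K) = embK (a : K) * (starRingEnd ℂ) (embK (a : K)) := by
    have : (((a * cj a : 𝓞 K)) : K) = (a : K) * ((cj a : 𝓞 K) : K) :=
      map_mul (algebraMap (𝓞 K) K) _ _
    rw [this, map_mul, emb_cj]
  have e2 : embK ((((Ideal.absNorm (Ideal.span {a}) : ℕ) : 𝓞 K)) : K) =
      ((Ideal.absNorm (Ideal.span {a}) : ℕ) : ℂ) := by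
    have : ((((Ideal.absNorm (Ideal.span {a}) : ℕ) : 𝓞 K)) : K) =
        ((Ideal.absNorm (Ideal.span {a}) : ℕ) : K) := map_natCast (algebraMap (𝓞 K) K) _
    rw [this, map_natCast]
  have h3 : embK (a : K) * (starRingEnd ℂ) (embK (a : K)) =
      ((Ideal.absNorm (Ideal.span {a}) : ℕ) : ℂ) := e1.symm.trans (h.trans e2)
  rw [Complex.mul_conj] at h3
  exact_mod_cast h3

/-- the conjugation as an automorphism of `𝓞 K` -/
def cjE : 𝓞 K ≃+* 𝓞 K := RingEquiv.ofRingHom cj cj (RingHom.ext cj_cj) (RingHom.ext cj_cj)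

theorem cjE_apply (a : 𝓞 K) : cjE a = cj a := rfl

end

end Pool.Agent.Lib.MP_1a91b9_nuT
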