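import Pool.Agent.Lib.MP_1a91b9_nuT.Nrm

/-!
# The quadratic field `K`: elementary facts

`om` is the second element of the integral basis `1, om` of `𝓞 K`, `zt` its image in `ℂ`;
`om ^ 2 = tr om - nm`, `conj zt = tr - zt`, `tr ^ 2 < 4 nm`.
-/

set_option autoImplicit false

namespace Pool.Agent.Lib.MP_1a91b9_nuT

open NumberField

noncomputable section

variable [CD]

/-- the second element of the integral basis, in `𝓞 K` -/
abbrev omO : 𝓞 K := CD.ta

/-- the second element of the integral basis, in `K` -/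
abbrev om : K := ((CD.ta : 𝓞 K) : K)

theorem coe_omO : (omO : K) = om := rfl

theorem embK_om : embK om = zt := rfl

theorem omO_quad : omO ^ 2 = (CD.tr : 𝓞 K) * omO - (CD.nm : 𝓞 K) := CD.quad

theorem om_quad : om ^ 2 = (CD.tr : K) * om - (CD.nm : K) := by
  have h := congrArg (algebraMap (𝓞 K) K) omO_quad
  rw [map_pow, map_sub, map_mul, map_intCast, map_intCast] at h
  exact h

theorem zt_ne_zero : zt ≠ 0 := fun h => zt_ne (by rw [h]; rfl)

theorem conj_zt_ne : (starRingEnd ℂ) zt ≠ zt := by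
  intro h
  rw [Complex.conj_eq_iff_im] at h
  exact zt_ne h

theorem zt_mul_conj : zt * (starRingEnd ℂ) zt = (CD.nm : ℂ) := by
  rw [conj_zt]
  linear_combination -zt_quad

theorem two_re_zt : 2 * zt.re = (CD.tr : ℝ) := by
  have h := congrArg Complex.re conj_zt
  rw [Complex.conj_re, Complex.sub_re, Complex.intCast_re] at h
  linarith

theorem norm_sq_zt : zt.re ^ 2 + zt.im ^ 2 = (CD.nm : ℝ) := by
  have h := congrArg Complex.re zt_mul_conj
  rw [Complex.mul_conj, Complex.ofReal_re, Complex.normSq_apply, Complex.intCast_re] at h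
  linarith

theorem four_im_sq : 4 * zt.im ^ 2 = 4 * (CD.nm : ℝ) - (CD.tr : ℝ) ^ 2 := by
  rw [← norm_sq_zt, ← two_re_zt]
  ring

theorem nm_pos : (0 : ℤ) < CD.nm := by
  have := disc_neg
  nlinarith [sq_nonneg (CD.tr : ℤ)]

theorem exists_coordsK (a : 𝓞 K) : ∃ m n : ℤ, (a : K) = m + n * om := by
  obtain ⟨m, n, h⟩ := CD.gen a
  refine ⟨m, n, ?_⟩
  rw [h]
  change algebraMap (𝓞 K) K ((m : 𝓞 K) + n * CD.ta) = _
  rw [map_add, map_mul, map_intCast, map_intCast]

theorem coe_lin (m n : ℤ) : (((m : 𝓞 K) + (n : 𝓞 K) * omO : 𝓞 K) : K) = (m : K) + (n : K) * om := by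
  change algebraMap (𝓞 K) K ((m : 𝓞 K) + n * CD.ta) = _
  rw [map_add, map_mul, map_intCast, map_intCast]

theorem embK_lin (m n : ℤ) : embK (((m : 𝓞 K) + (n : 𝓞 K) * omO : 𝓞 K) : K) = m + n * zt := by
  rw [coe_lin, map_add, map_mul, map_intCast, map_intCast, embK_om]

theorem lin_zero (p q : ℤ) (h : (p : ℂ) + q * zt = 0) : p = 0 ∧ q = 0 := by
  have h1 := congrArg Complex.im h
  have h2 := congrArg Complex.re h
  simp at h1 h2
  have h3 : q = 0 := h1.resolve_right zt_ne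
  subst h3
  simp at h2
  exact ⟨h2, rfl⟩

theorem lin_inj (p q p' q' : ℤ) (h : (p : ℂ) + q * zt = p' + q' * zt) : p = p' ∧ q = q' := by
  have h1 : ((p - p' : ℤ) : ℂ) + ((q - q' : ℤ) : ℂ) * zt = 0 := by
    push_cast
    linear_combination h
  obtain ⟨h2, h3⟩ := lin_zero _ _ h1
  exact ⟨by linarith, by linarith⟩

/-- the norm form -/
theorem norm_coords (p q : ℤ) : ((p : ℂ) + q * zt) * (starRingEnd ℂ) ((p : ℂ) + q * zt) =
    ((p ^ 2 + CD.tr * p * q + CD.nm * q ^ 2 : ℤ) : ℂ) := by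
  rw [map_add, map_mul, map_intCast, map_intCast, conj_zt]
  push_cast
  linear_combination -(q : ℂ) ^ 2 * zt_quad

theorem norm_lin (p q : ℤ) :
    ‖(p : ℂ) + q * zt‖ ^ 2 = ((p ^ 2 + CD.tr * p * q + CD.nm * q ^ 2 : ℤ) : ℝ) := by
  have h := norm_coords p q
  rw [Complex.mul_conj, Complex.normSq_eq_norm_sq] at h
  exact_mod_cast h

/-- the coordinates of an element of `K` -/
theorem exists_rat_coords (x : K) : ∃ a b : ℚ, x = (a : K) + (b : K) * om := by
  have hx : IsAlgebraic ℤ x :=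
    (IsFractionRing.isAlgebraic_iff ℤ ℚ K).2 (Algebra.IsAlgebraic.isAlgebraic x)
  obtain ⟨n, hn, hy⟩ := hx.exists_integral_multiple
  obtain ⟨p, q, h⟩ := exists_coords ⟨n • x, hy⟩
  have h1 : (n : K) * x = p + q * om := by
    rw [← coe_lin, ← h]
    show (n : K) * x = n • x
    rw [zsmul_eq_mul]
  have hn' : (n : K) ≠ 0 := Int.cast_ne_zero.2 hn
  refine ⟨(p : ℚ) / n, (q : ℚ) / n, ?_⟩
  push_cast
  field_simp
  linear_combination h1

end

end Pool.Agent.Lib.MP_1a91b9_nuT
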