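import Pool.Agent.Lib.MP_1a91b9_nuT.BaseK

/-!
# The square root of the absolute value of the discriminant of `𝓞 K`
-/

set_option autoImplicit false

namespace Pool.Agent.Lib.MP_1a91b9_nuT

open NumberField

noncomputable section

variable [CD]

/-- `√(4 nm - tr ^ 2)`, the square root of the absolute value of the discriminant of `𝓞 K` -/
def sd : ℝ := Real.sqrt ((4 * CD.nm - CD.tr ^ 2 : ℤ) : ℝ)

theorem dn_pos : (0 : ℤ) < 4 * CD.nm - CD.tr ^ 2 := by
  have := disc_neg
  linarith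

theorem sd_pos : 0 < sd := Real.sqrt_pos.2 (by exact_mod_cast dn_pos)

theorem sd_sq : sd ^ 2 = ((4 * CD.nm - CD.tr ^ 2 : ℤ) : ℝ) :=
  Real.sq_sqrt (by exact_mod_cast dn_pos.le)

theorem sd_ne : sd ≠ 0 := sd_pos.ne'

theorem sdC_ne : (sd : ℂ) ≠ 0 := Complex.ofReal_ne_zero.2 sd_ne

theorem sdC_sq : (sd : ℂ) ^ 2 = ((4 * CD.nm - CD.tr ^ 2 : ℤ) : ℂ) := by
  rw [← Complex.ofReal_pow, sd_sq, Complex.ofReal_intCast]

theorem two_abs_im : 2 * |zt.im| = sd := by
  have h : (2 * |zt.im|) ^ 2 = sd ^ 2 := by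
    rw [mul_pow, sq_abs, sd_sq]
    have := four_im_sq
    push_cast
    linarith
  exact (pow_left_inj₀ (by positivity) sd_pos.le two_ne_zero).1 h

theorem abs_im : |zt.im| = sd / 2 := by
  rw [← two_abs_im]
  ring

theorem norm_conj_sub : ‖(starRingEnd ℂ) zt - zt‖ = sd := by
  have h : (starRingEnd ℂ) zt - zt = ((-(2 * zt.im) : ℝ) : ℂ) * Complex.I := by
    apply Complex.ext
    · simp
    · simp
      ring
  rw [h, norm_mul, Complex.norm_I, mul_one, Complex.norm_real, norm_neg, Real.norm_eq_abs, abs_mul,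
    abs_two, two_abs_im]

/-- `I sd` is in `K`. -/
theorem exists_I_sd : ∃ x : K, embK x = Complex.I * (sd : ℂ) := by
  have e : embK (2 * om - (CD.tr : K)) = Complex.I * ((2 * zt.im : ℝ) : ℂ) := by
    rw [map_sub, map_mul, map_ofNat, map_intCast, embK_om]
    have h := two_re_zt
    apply Complex.ext
    · simp
      linarith
    · simp
  rcases le_total 0 zt.im with h | h
  · refine ⟨2 * om - (CD.tr : K), ?_⟩
    rw [e, ← two_abs_im, abs_of_nonneg h]
  · refine ⟨-(2 * om - (CD.tr : K)), ?_⟩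
    rw [map_neg, e, ← two_abs_im, abs_of_nonpos h]
    push_cast
    ring

end

end Pool.Agent.Lib.MP_1a91b9_nuT
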