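import Mathlib

/-!
# Elliptic curves over `ℚ` with complex multiplication by the ring of integers of an imaginary
quadratic field of class number one: the data

`CD` packages the field `K`, a complex embedding, an integral basis `1, ta` of `𝓞 K`, a curve
`y² = x³ + A x + B` with integral coefficients whose lattice of periods is homothetic to `𝓞 K`,
the integral polynomials of the multiplication by `ta` on the abscissae and a nonzero integer `bad`.
-/

set_option autoImplicit false

namespace Pool.Agent.Lib.MP_1a91b9_nuT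

open NumberField

noncomputable section

/-- the lattice `ℤ + ℤ t` as a period pair -/
def mkPP (t : ℂ) (h : t.im ≠ 0) : PeriodPair where
  ω₁ := 1
  ω₂ := t
  indep := by
    rw [LinearIndependent.pair_iff]
    intro s r e
    have him := congrArg Complex.im e
    have hre := congrArg Complex.re e
    simp at him hre
    have hr : r = 0 := by
      rcases him with e1 | e1
      · exact e1
      · exact absurd e1 h
    subst hr
    simpa using hre

/-- The data of complex multiplication. -/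
class CD where
  /-- the imaginary quadratic field -/
  K : Type
  [fieldK : Field K]
  [nfK : NumberField K]
  [pidK : IsPrincipalIdealRing (𝓞 K)]
  /-- the complex embedding -/
  emb : K →ₐ[ℚ] ℂ
  /-- the second element of the integral basis `1, ta` -/
  ta : 𝓞 K
  gen : ∀ a : 𝓞 K, ∃ m n : ℤ, a = (m : 𝓞 K) + (n : 𝓞 K) * ta
  im : (emb (ta : K)).im ≠ 0
  /-- trace and norm of `ta` -/
  tr : ℤ
  nm : ℤ
  quad : ta ^ 2 = (tr : 𝓞 K) * ta - (nm : 𝓞 K)
  /-- the coefficients of the curve -/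
  A : ℤ
  B : ℤ
  disc : 4 * A ^ 3 + 27 * B ^ 2 ≠ 0
  /-- the invariant `j` is an integer -/
  jint : 4 * A ^ 3 + 27 * B ^ 2 ∣ 6912 * A ^ 3
  /-- the period: the lattice of `y² = x³ + A x + B` is `Om` times the lattice of `𝓞 K`, the
  parametrisation is `z ↦ (P(z)/Om², P'(z)/(2 Om³))` -/
  Om : ℂ
  Om_ne : Om ≠ 0
  g2 : (mkPP (emb (ta : K)) im).g₂ = -4 * (A : ℂ) * Om ^ 4
  g3 : (mkPP (emb (ta : K)) im).g₃ = -4 * (B : ℂ) * Om ^ 6
  /-- the multiplication by `ta` on the abscissae is `Nt / Dt` -/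
  Nt : Polynomial (𝓞 K)
  Dt : Polynomial (𝓞 K)
  Nt_monic : Nt.Monic
  Nt_deg : (Nt.natDegree : ℤ) = nm
  Dt_deg : Dt.natDegree + 1 = Nt.natDegree
  Dt_lead : Dt.leadingCoeff = ta ^ 2
  Nt_lo : ∃ N₁ : Polynomial (𝓞 K),
    Nt = Polynomial.X ^ Nt.natDegree + Polynomial.C (ta ^ 3) * N₁
  Dt_lo : ∃ D₁ : Polynomial (𝓞 K),
    Dt = Polynomial.C (ta ^ 2) * Polynomial.X ^ Dt.natDegree + Polynomial.C (ta ^ 3) * D₁
  cop : IsCoprime (Nt.map (algebraMap (𝓞 K) K)) (Dt.map (algebraMap (𝓞 K) K))
  mulx : ∀ z : ℂ, z ∉ (mkPP (emb (ta : K)) im).lattice →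
    emb (ta : K) * z ∉ (mkPP (emb (ta : K)) im).lattice →
    Polynomial.eval₂ (emb.toRingHom.comp (algebraMap (𝓞 K) K))
      ((mkPP (emb (ta : K)) im).weierstrassP z / Om ^ 2) Nt =
    (mkPP (emb (ta : K)) im).weierstrassP (emb (ta : K) * z) / Om ^ 2 *
      Polynomial.eval₂ (emb.toRingHom.comp (algebraMap (𝓞 K) K))
        ((mkPP (emb (ta : K)) im).weierstrassP z / Om ^ 2) Dt
  /-- the product of the bad and the small primes -/
  bad : ℤ
  bad_ne : bad ≠ 0
  bad_dvd : 6 * (4 * A ^ 3 + 27 * B ^ 2) * nm * (tr ^ 2 - 4 * nm) ∣ bad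

/-- the field `K` -/
abbrev K [CD] : Type := CD.K

section
variable [CD]

instance fieldK : Field K := CD.fieldK
instance numberFieldK : NumberField K := CD.nfK
instance charZeroK : CharZero K := numberFieldK.to_charZero
instance pidK : IsPrincipalIdealRing (𝓞 K) := CD.pidK

/-- The embedding of `K` in `ℂ`. -/
abbrev embK : K →ₐ[ℚ] ℂ := CD.emb

instance algKC : Algebra K ℂ := (embK : K →ₐ[ℚ] ℂ).toRingHom.toAlgebra

theorem algebraMap_eq (x : K) : algebraMap K ℂ x = embK x := rfl

/-- the element `ta` of the integral basis -/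
abbrev ta : 𝓞 K := CD.ta

/-- the image of `ta` -/
def zt : ℂ := embK (ta : K)

theorem zt_ne : zt.im ≠ 0 := CD.im

/-- The lattice `ℤ + ℤ zt` as a period pair. -/
def PP : PeriodPair := mkPP zt zt_ne

/-- the period -/
def Om : ℂ := CD.Om

theorem Om_ne : Om ≠ 0 := CD.Om_ne

/-- the coefficients of the curve in a ring -/
abbrev cA (F : Type*) [Ring F] : F := ((CD.A : ℤ) : F)
abbrev cB (F : Type*) [Ring F] : F := ((CD.B : ℤ) : F)

theorem g2_eq : PP.g₂ = -4 * cA ℂ * Om ^ 4 := CD.g2
theorem g3_eq : PP.g₃ = -4 * cB ℂ * Om ^ 6 := CD.g3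

/-- the product of the bad primes as an element of `F` -/
abbrev bD (F : Type*) [Ring F] : F := ((CD.bad : ℤ) : F)

/-- The curve `y² = x³ + A x + B`. -/
def E (F : Type*) [Field F] : WeierstrassCurve F := ⟨0, 0, 0, cA F, cB F⟩

end

end

end Pool.Agent.Lib.MP_1a91b9_nuT
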